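import Pool.Agent.Y234.EM.Stm

/-!
Project EM (owner helper234), part GENA: the Jacobian determinant of a monic map is not zero.
-/

set_option autoImplicit false

namespace Pool.Agent.Y388.EM

open Finset Pool.Agent.Y234.EM

/-- the substitution `x_i ↦ x_i T` -/
noncomputable def ph (k : Type) [Field k] (v : ℕ) :
    MvPolynomial (Fin v) k →+* Polynomial (MvPolynomial (Fin v) k) :=
  MvPolynomial.eval₂Hom (Polynomial.C.comp MvPolynomial.C)
    fun i => Polynomial.C (MvPolynomial.X i) * Polynomial.X

variable {k : Type} [Field k] {v : ℕ}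

theorem ph_monomial (s : Fin v →₀ ℕ) (a : k) :
    ph k v (MvPolynomial.monomial s a) =
      Polynomial.C (MvPolynomial.monomial s a) * Polynomial.X ^ (∑ i, s i) := by
  unfold ph
  rw [MvPolynomial.coe_eval₂Hom, MvPolynomial.eval₂_monomial, Finsupp.prod_fintype _ _
    fun i => pow_zero _, MvPolynomial.monomial_eq, Finsupp.prod_fintype _ _ fun i => pow_zero _]
  rw [map_mul, map_prod, RingHom.comp_apply, mul_assoc]
  congr 1
  rw [← prod_pow_eq_pow_sum, ← prod_mul_distrib]
  refine prod_congr rfl fun i _ => ?_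
  rw [mul_pow, map_pow]

theorem ph_sum (p : MvPolynomial (Fin v) k) :
    ph k v p = ∑ s ∈ p.support,
      Polynomial.C (MvPolynomial.monomial s (p.coeff s)) * Polynomial.X ^ (∑ i, s i) := by
  conv_lhs => rw [p.as_sum, map_sum]
  exact sum_congr rfl fun s _ => ph_monomial s _

theorem deg_le (p : MvPolynomial (Fin v) k) {s : Fin v →₀ ℕ} (hs : s ∈ p.support) :
    ∑ i, s i ≤ p.totalDegree := by
  have h1 := MvPolynomial.le_totalDegree hs
  rwa [Finsupp.sum_fintype _ _ fun _ => rfl] at h1

/-- the derivatives of a polynomial of total degree less than `M` -/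
theorem ph_pderiv {M : ℕ} (hM : 1 ≤ M) (g : MvPolynomial (Fin v) k) (hg : g.totalDegree < M)
    (j : Fin v) : (ph k v (MvPolynomial.pderiv j g)).natDegree ≤ M - 1 ∧
      (ph k v (MvPolynomial.pderiv j g)).coeff (M - 1) = 0 := by
  have h1 : ph k v (MvPolynomial.pderiv j g) = ∑ s ∈ g.support,
      Polynomial.C (MvPolynomial.monomial (s - Finsupp.single j 1) (g.coeff s * (s j : k))) *
        Polynomial.X ^ (∑ i, (s - Finsupp.single j 1 : Fin v →₀ ℕ) i) := by
    conv_lhs => rw [g.as_sum, map_sum, map_sum]
    refine sum_congr rfl fun s _ => ?_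
    rw [MvPolynomial.pderiv_monomial, ph_monomial]
  have h2 : ∀ s ∈ g.support, (s j : ℕ) = 0 ∨ ∑ i, (s - Finsupp.single j 1 : Fin v →₀ ℕ) i < M - 1 := by
    intro s hs
    rcases Nat.eq_zero_or_pos (s j) with h | h
    · exact Or.inl h
    · right
      have h3 := deg_le g hs
      have h4 : ∑ i, (s - Finsupp.single j 1 : Fin v →₀ ℕ) i < ∑ i, s i := by
        apply sum_lt_sum
        · intro i _
          rw [Finsupp.tsub_apply]
          exact Nat.sub_le _ _
        · refine ⟨j, mem_univ j, ?_⟩
          rw [Finsupp.tsub_apply, Finsupp.single_eq_same]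
          omega
      omega
  rw [h1]
  constructor
  · apply Polynomial.natDegree_sum_le_of_forall_le
    intro s hs
    rcases h2 s hs with h | h
    · rw [h]
      simp
    · exact (Polynomial.natDegree_C_mul_X_pow_le _ _).trans h.le
  · rw [Polynomial.finsetSum_coeff]
    refine sum_eq_zero fun s hs => ?_
    rcases h2 s hs with h | h
    · rw [h]
      simp
    · rw [Polynomial.coeff_C_mul_X_pow, if_neg (by omega)]

theorem gena : S_GENA := by
  intro k _ v M f hf hMk hdet
  obtain ⟨hM, hg⟩ := hf
  choose g hg hfg using hg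
  have hA : ∀ i j, (ph k v (MvPolynomial.pderiv j (f i))).natDegree ≤ M - 1 ∧
      (ph k v (MvPolynomial.pderiv j (f i))).coeff (M - 1) =
        if i = j then MvPolynomial.C (M : k) * MvPolynomial.X i ^ (M - 1) else 0 := by
    intro i j
    obtain ⟨h1, h2⟩ := ph_pderiv hM (g i) (hg i) j
    have h3 : MvPolynomial.pderiv j (f i) = MvPolynomial.pderiv j (g i) +
        if i = j then MvPolynomial.C (M : k) * MvPolynomial.X i ^ (M - 1) else 0 := by
      rw [hfg i, map_add]
      congr 1
      rw [MvPolynomial.pderiv_pow, MvPolynomial.pderiv_X]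
      by_cases hij : i = j
      · subst hij
        rw [if_pos rfl, Pi.single_eq_same]
        simp
      · rw [if_neg hij, Pi.single_eq_of_ne hij, mul_zero]
    have h4 : ph k v (MvPolynomial.C (M : k) * MvPolynomial.X i ^ (M - 1)) =
        Polynomial.C (MvPolynomial.C (M : k) * MvPolynomial.X i ^ (M - 1)) *
          Polynomial.X ^ (M - 1) := by
      rw [map_mul, map_pow, map_mul Polynomial.C, map_pow Polynomial.C]
      unfold ph
      rw [MvPolynomial.eval₂Hom_X', MvPolynomial.eval₂Hom_C, RingHom.comp_apply, mul_pow]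
      ring
    rw [h3, map_add]
    by_cases hij : i = j
    · rw [if_pos hij, h4]
      refine ⟨Polynomial.natDegree_add_le_of_degree_le h1
        (Polynomial.natDegree_C_mul_X_pow_le _ _), ?_⟩
      rw [Polynomial.coeff_add, h2, zero_add, Polynomial.coeff_C_mul_X_pow, if_pos rfl]
    · rw [if_neg hij, map_zero, add_zero]
      exact ⟨h1, h2⟩
  have h1 : (ph k v (Matrix.of fun i j => MvPolynomial.pderiv j (f i)).det).coeff
      ((univ : Finset (Fin v)).card * (M - 1)) =
      (Matrix.diagonal fun i : Fin v =>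
        MvPolynomial.C (M : k) * MvPolynomial.X i ^ (M - 1)).det := by
    rw [Matrix.det_apply', Matrix.det_apply', map_sum, Polynomial.finsetSum_coeff]
    refine sum_congr rfl fun σ _ => ?_
    rw [map_mul, map_intCast, map_prod]
    have h2 : (∏ i, ph k v ((Matrix.of fun i j => MvPolynomial.pderiv j (f i)) (σ i) i)).coeff
        ((univ : Finset (Fin v)).card * (M - 1)) =
        ∏ i, (Matrix.diagonal fun i : Fin v =>
          MvPolynomial.C (M : k) * MvPolynomial.X i ^ (M - 1)) (σ i) i := by
      simp only [Matrix.of_apply]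
      rw [Polynomial.coeff_prod_of_natDegree_le _ _ _ fun i _ => (hA (σ i) i).1]
      refine prod_congr rfl fun i _ => ?_
      rw [Matrix.diagonal_apply]
      exact (hA (σ i) i).2
    rw [← h2, ← Polynomial.C_eq_intCast, Polynomial.coeff_C_mul]
  rw [hdet, map_zero, Polynomial.coeff_zero, Matrix.det_diagonal] at h1
  have h2 : ∏ i : Fin v, MvPolynomial.C (M : k) * MvPolynomial.X i ^ (M - 1) ≠
      (0 : MvPolynomial (Fin v) k) := prod_ne_zero_iff.2 fun i _ =>
    mul_ne_zero (by rwa [Ne, MvPolynomial.C_eq_zero]) (pow_ne_zero _ (MvPolynomial.X_ne_zero i))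
  exact h2 h1.symm

end Pool.Agent.Y388.EM
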