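import Pool.Agent.Y234.EM.Stm

/-!
Project EM (owner helper234), part GENB: nonzero polynomials are units on generic fibres.
-/

set_option autoImplicit false

namespace Pool.Agent.Y388.EM

open Finset Pool.Agent.Y234.EM

section

variable {k : Type} [Field k] {v M : ℕ} (f : Fin v → MvPolynomial (Fin v) k)

/-- the element with given coordinates -/
noncomputable def TT (H : (Fin v → Fin M) → MvPolynomial (Fin v) k) : MvPolynomial (Fin v) k :=
  ∑ a : Fin v → Fin M, MvPolynomial.aeval f (H a) * ∏ i, MvPolynomial.X i ^ (a i : ℕ)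

theorem TT_zero : TT f (0 : (Fin v → Fin M) → MvPolynomial (Fin v) k) = 0 := by
  unfold TT
  refine sum_eq_zero fun a _ => ?_
  rw [Pi.zero_apply, map_zero, zero_mul]

theorem TT_smul (p : MvPolynomial (Fin v) k) (H : (Fin v → Fin M) → MvPolynomial (Fin v) k) :
    TT f (p • H) = MvPolynomial.aeval f p * TT f H := by
  unfold TT
  rw [mul_sum]
  refine sum_congr rfl fun a _ => ?_
  rw [Pi.smul_apply, smul_eq_mul, map_mul, mul_assoc]

/-- a nonzero polynomial divides a polynomial in `f` -/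
theorem exists_mul (hB : S_BAS) (hf : Mo M f) (Δ : MvPolynomial (Fin v) k) (hΔ : Δ ≠ 0) :
    ∃ (h₀ G : MvPolynomial (Fin v) k), h₀ ≠ 0 ∧ Δ * G = MvPolynomial.aeval f h₀ := by
  classical
  have hb := hB k v M f hf
  have hinj : ∀ H : (Fin v → Fin M) → MvPolynomial (Fin v) k, TT f H = 0 → H = 0 := by
    intro H hH
    obtain ⟨H', -, huniq⟩ := hb 0
    rw [huniq H hH.symm, huniq 0 (TT_zero f).symm]
  have hcol : ∀ b : Fin v → Fin M, ∃ H : (Fin v → Fin M) → MvPolynomial (Fin v) k,
      TT f H = Δ * ∏ i, MvPolynomial.X i ^ (b i : ℕ) := by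
    intro b
    obtain ⟨H, hH, -⟩ := hb (Δ * ∏ i, MvPolynomial.X i ^ (b i : ℕ))
    exact ⟨H, hH.symm⟩
  choose A' hA' using hcol
  set A : Matrix (Fin v → Fin M) (Fin v → Fin M) (MvPolynomial (Fin v) k) :=
    Matrix.of fun a b => A' b a with hA
  have hmul : ∀ H : (Fin v → Fin M) → MvPolynomial (Fin v) k, TT f (A.mulVec H) = Δ * TT f H := by
    intro H
    have h1 : Δ * TT f H = ∑ b, MvPolynomial.aeval f (H b) * TT f (A' b) := by
      unfold TT
      rw [mul_sum]
      refine sum_congr rfl fun b _ => ?_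
      have h2 := hA' b
      unfold TT at h2
      rw [h2]
      ring
    rw [h1]
    unfold TT
    simp only [mul_sum]
    rw [sum_comm]
    refine sum_congr rfl fun a _ => ?_
    have h2 : A.mulVec H a = ∑ b, A' b a * H b := rfl
    rw [h2, map_sum, sum_mul]
    refine sum_congr rfl fun b _ => ?_
    rw [map_mul]
    ring
  have hdet : A.det ≠ 0 := by
    intro h0
    obtain ⟨H, hH0, hH⟩ := Matrix.exists_mulVec_eq_zero_iff.2 h0
    have h1 := hmul H
    rw [hH, TT_zero] at h1
    exact hH0 (hinj H ((mul_eq_zero.1 h1.symm).resolve_left hΔ))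
  obtain ⟨H₁, hH₁, -⟩ := hb 1
  refine ⟨A.det, TT f (A.adjugate.mulVec H₁), hdet, ?_⟩
  rw [← hmul, Matrix.mulVec_mulVec, Matrix.mul_adjugate, Matrix.smul_mulVec, Matrix.one_mulVec,
    TT_smul]
  have h2 : TT f H₁ = 1 := hH₁.symm
  rw [h2, mul_one]

/-- the evaluation at `c T` -/
noncomputable def ec (c : Fin v → k) : MvPolynomial (Fin v) k →+* Polynomial k :=
  MvPolynomial.eval₂Hom Polynomial.C fun i => Polynomial.C (c i) * Polynomial.X

theorem ec_coeff (c : Fin v → k) (p : MvPolynomial (Fin v) k) (d : ℕ) :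
    (ec c p).coeff d = MvPolynomial.eval c (MvPolynomial.homogeneousComponent d p) := by
  classical
  rw [MvPolynomial.homogeneousComponent_apply, map_sum]
  unfold ec
  rw [MvPolynomial.coe_eval₂Hom, MvPolynomial.eval₂_eq', Polynomial.finsetSum_coeff, sum_filter]
  refine sum_congr rfl fun s _ => ?_
  have h1 : ∏ i, (Polynomial.C (c i) * Polynomial.X) ^ (s i) =
      Polynomial.C (∏ i, c i ^ (s i)) * Polynomial.X ^ (s.degree) := by
    rw [map_prod, Finsupp.degree_eq_sum, ← prod_pow_eq_pow_sum, ← prod_mul_distrib]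
    refine prod_congr rfl fun i _ => ?_
    rw [mul_pow, map_pow]
  rw [h1, ← mul_assoc, ← map_mul, Polynomial.coeff_C_mul_X_pow, MvPolynomial.eval_monomial,
    Finsupp.prod_fintype _ _ fun i => pow_zero _]
  by_cases h : d = s.degree
  · rw [if_pos h, if_pos h.symm]
  · rw [if_neg h, if_neg (Ne.symm h)]

end

theorem genb (hB : S_BAS) : S_GENB := by
  intro k F _ _ φ τ v M f Δ hf hΔ hτ
  obtain ⟨h₀, G, hh₀, hG⟩ := exists_mul f hB hf Δ hΔ
  have hd : ∃ d, MvPolynomial.homogeneousComponent d h₀ ≠ 0 := by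
    by_contra hcon
    push Not at hcon
    apply hh₀
    rw [← MvPolynomial.sum_homogeneousComponent h₀]
    exact sum_eq_zero fun d _ => hcon d
  obtain ⟨d, hd⟩ := hd
  refine ⟨MvPolynomial.homogeneousComponent d h₀, hd, fun c hc => ?_⟩
  set I : Ideal (MvPolynomial (Fin v) F) :=
    qq fun i => MvPolynomial.map φ (f i) - MvPolynomial.C (τ * φ (c i)) with hI
  set ψ : MvPolynomial (Fin v) k →+* F := (Polynomial.eval₂RingHom φ τ).comp (ec c) with hψ
  have hψ0 : ψ h₀ ≠ 0 := by
    intro h0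
    have h1 := hτ (ec c h₀) h0
    have h2 := ec_coeff c h₀ d
    rw [h1, Polynomial.coeff_zero] at h2
    exact hc h2.symm
  have hcomp : ((Ideal.Quotient.mk I).comp (MvPolynomial.map φ)).comp
      (MvPolynomial.aeval f : MvPolynomial (Fin v) k →ₐ[k] MvPolynomial (Fin v) k).toRingHom =
      ((Ideal.Quotient.mk I).comp MvPolynomial.C).comp ψ := by
    apply MvPolynomial.ringHom_ext
    · intro r
      have h1 : ec c (MvPolynomial.C r) = Polynomial.C r := by
        unfold ec
        rw [MvPolynomial.eval₂Hom_C]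
      simp only [RingHom.comp_apply, AlgHom.toRingHom_eq_coe, RingHom.coe_coe, hψ, h1,
        MvPolynomial.aeval_C, MvPolynomial.algebraMap_eq, MvPolynomial.map_C,
        Polynomial.coe_eval₂RingHom, Polynomial.eval₂_C]
    · intro i
      have h1 : ec c (MvPolynomial.X i) = Polynomial.C (c i) * Polynomial.X := by
        unfold ec
        rw [MvPolynomial.eval₂Hom_X']
      simp only [RingHom.comp_apply, AlgHom.toRingHom_eq_coe, RingHom.coe_coe, hψ, h1,
        MvPolynomial.aeval_X, Polynomial.coe_eval₂RingHom, Polynomial.eval₂_mul,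
        Polynomial.eval₂_C, Polynomial.eval₂_X]
      rw [Ideal.Quotient.eq, mul_comm (φ (c i)) τ]
      exact Ideal.subset_span ⟨i, rfl⟩
  have h1 : Ideal.Quotient.mk I (MvPolynomial.map φ Δ) *
      Ideal.Quotient.mk I (MvPolynomial.map φ G) =
      Ideal.Quotient.mk I (MvPolynomial.C (ψ h₀)) := by
    rw [← map_mul, ← map_mul, hG]
    exact RingHom.congr_fun hcomp h₀
  apply isUnit_of_mul_isUnit_left (y := Ideal.Quotient.mk I (MvPolynomial.map φ G))
  rw [h1]
  exact ((IsUnit.mk0 _ hψ0).map MvPolynomial.C).map (Ideal.Quotient.mk I)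

end Pool.Agent.Y388.EM
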